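import Pool.Agent.Work.MP_2738db_nt_Z.Interface
import Pool.Agent.Work.PS.Main
import Pool.Agent.Work.SW.Walfisz

/-!
Block SUP (helper49): primes `1` modulo `d` up to a fixed power of `d`, all `d` outside the
multiples of one large exceptional modulus.
-/

set_option autoImplicit false

namespace Pool.Agent.Work.MP_2738db_nt_Z.helper49

open Finset ArithmeticFunction
open Pool.Agent.PS
open scoped Classical

/-- orthogonality -/
theorem psi_ap (d : ℕ) (hd : 0 < d) (I : Finset ℕ) :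
    ∑ χ : DirichletCharacter ℂ d, ∑ n ∈ I, (Λ n : ℂ) * χ (n : ZMod d)
      = (d.totient : ℂ) * ∑ n ∈ I.filter (fun n => n % d = 1 % d), (Λ n : ℂ) := by
  have : NeZero d := ⟨hd.ne'⟩
  rw [sum_comm, sum_filter, mul_sum]
  refine sum_congr rfl fun n _ => ?_
  rw [← mul_sum]
  have h1 : ∑ χ : DirichletCharacter ℂ d, χ (n : ZMod d)
      = if (1 : ZMod d) = n then (d.totient : ℂ) else 0 := by
    rw [← DirichletCharacter.sum_char_inv_mul_char_eq ℂ isUnit_one (n : ZMod d)]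
    refine sum_congr rfl fun χ _ => ?_
    have h0 : ((1 : ZMod d)⁻¹) = 1 := ZMod.inv_one d
    rw [h0, map_one, one_mul]
  rw [h1]
  have h2 : ((1 : ZMod d) = n) ↔ n % d = 1 % d := by
    rw [eq_comm, ← Nat.cast_one, ZMod.natCast_eq_natCast_iff, Nat.ModEq]
  by_cases h : n % d = 1 % d
  · rw [if_pos (h2.2 h), if_pos h, mul_comm]
  · rw [if_neg (fun h3 => h (h2.1 h3)), if_neg h]
    simp

/-- from a character to its primitive character -/
theorem chi_pr (d N : ℕ) (hd : 0 < d) (χ : DirichletCharacter ℂ d) :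
    ‖∑ n ∈ Ioc 1 N, (Λ n : ℂ) * χ (n : ZMod d)
        - ∑ n ∈ Ioc 1 N, (Λ n : ℂ) * (pr χ).2 (n : ZMod (pr χ).1)‖
      ≤ Real.log d * Real.log N / Real.log 2 := by
  refine le_trans ?_ (Pool.Agent.SW.nc_sum_le N d hd)
  rw [← sum_sub_distrib, sum_filter]
  refine (norm_sum_le _ _).trans ?_
  have hg : ∀ n, 0 ≤ (if ¬ n.Coprime d then Λ n else 0) := by
    intro n
    by_cases h : n.Coprime d
    · rw [if_neg (not_not.2 h)]
    · rw [if_pos h]
      exact vonMangoldt_nonneg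
  refine le_trans (sum_le_sum (g := fun n => if ¬ n.Coprime d then Λ n else 0) fun n _ => ?_)
    (sum_le_sum_of_subset_of_nonneg (Ioc_subset_Ioc_left (by norm_num)) fun n _ _ => hg n)
  · by_cases h : n.Coprime d
    · rw [if_neg (not_not.2 h)]
      have h2 : (pr χ).2 (n : ZMod (pr χ).1) = χ (n : ZMod d) := by
        show χ.primitiveCharacter (n : ZMod χ.conductor) = χ (n : ZMod d)
        have h2 : IsCoprime (n : ℤ) (d : ℤ) := Nat.isCoprime_iff_coprime.mpr h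
        have h3 := DirichletCharacter.primitiveCharacter_apply_of_isCoprime χ h2
        simpa using h3
      rw [h2, sub_self, norm_zero]
    · rw [if_pos h]
      have h3 : χ (n : ZMod d) = 0 := by
        apply MulChar.map_nonunit
        rwa [ZMod.isUnit_iff_coprime]
      rw [h3, mul_zero, zero_sub, norm_neg, norm_mul, Complex.norm_real, Real.norm_eq_abs,
        abs_of_nonneg vonMangoldt_nonneg]
      exact mul_le_of_le_one_right vonMangoldt_nonneg (DirichletCharacter.norm_le_one _ _)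

/-- one zero -/
theorem zterm (ρ : ℂ) (h1 : 9 / 10 ≤ ρ.re) (h2 : ρ.re ≤ 1) (Z Y : ℝ) (hZ : 1 ≤ Z) (hY : 1 ≤ Y) :
    ‖Complex.exp (ρ ^ 2 / (2 * Z)) * (((Y : ℂ) ^ ρ - (((1 : ℝ) : ℂ)) ^ ρ) / ρ)‖
      ≤ 5 * Y * Y ^ (ρ.re - 1) := by
  have hexp : ‖Complex.exp (ρ ^ 2 / (2 * Z))‖ ≤ 2 := by
    rw [Complex.norm_exp]
    have e1 : (ρ ^ 2 / (2 * Z)).re = (ρ.re ^ 2 - ρ.im ^ 2) / (2 * Z) := by
      have : (ρ ^ 2 / (2 * (Z : ℂ))) = ρ ^ 2 / ((2 * Z : ℝ) : ℂ) := by push_cast; rfl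
      rw [this, Complex.div_ofReal_re, pow_two, Complex.mul_re]
      ring
    rw [e1]
    have e2 : (ρ.re ^ 2 - ρ.im ^ 2) / (2 * Z) ≤ 1 / 2 := by
      rw [div_le_iff₀ (by linarith)]
      nlinarith [sq_nonneg ρ.im]
    refine (Real.exp_le_exp.2 e2).trans ?_
    have e3 : Real.exp (1 / 2) ^ 2 ≤ 2 ^ 2 := by
      rw [← Real.exp_nat_mul]
      norm_num
      exact Real.exp_one_lt_d9.le.trans (by norm_num)
    exact le_of_pow_le_pow_left₀ (by norm_num) (by norm_num) e3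
  have hY0 : 0 < Y := by linarith
  have hYr : 1 ≤ Y ^ ρ.re := Real.one_le_rpow hY (by linarith)
  have hn : ‖(Y : ℂ) ^ ρ - (((1 : ℝ) : ℂ)) ^ ρ‖ ≤ 2 * Y ^ ρ.re := by
    refine (norm_sub_le _ _).trans ?_
    rw [Complex.norm_cpow_eq_rpow_re_of_pos hY0, Complex.ofReal_one, Complex.one_cpow, norm_one]
    linarith
  have hρ : 9 / 10 ≤ ‖ρ‖ := h1.trans ((le_abs_self _).trans (Complex.abs_re_le_norm ρ))
  have hYe : Y * Y ^ (ρ.re - 1) = Y ^ ρ.re := by
    rw [Real.rpow_sub_one hY0.ne']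
    field_simp
  rw [norm_mul, norm_div, mul_assoc, hYe]
  have h3 : ‖(Y : ℂ) ^ ρ - (((1 : ℝ) : ℂ)) ^ ρ‖ / ‖ρ‖ ≤ 5 / 2 * Y ^ ρ.re := by
    rw [div_le_iff₀ (by linarith)]
    nlinarith
  calc _ ≤ 2 * (5 / 2 * Y ^ ρ.re) := mul_le_mul hexp h3 (by positivity) (by norm_num)
    _ = _ := by ring

theorem zsum (L : List ℂ) (hL : ∀ ρ ∈ L, 9 / 10 ≤ ρ.re ∧ ρ.re ≤ 1) (Z Y : ℝ) (hZ : 1 ≤ Z)
    (hY : 1 ≤ Y) :
    ‖(L.map fun ρ => Complex.exp (ρ ^ 2 / (2 * Z)) *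
      (((Y : ℂ) ^ ρ - (((1 : ℝ) : ℂ)) ^ ρ) / ρ)).sum‖ ≤ 5 * Y * zs L Y := by
  refine (sum_map_le (g := fun ρ => (5 * Y) * Y ^ (ρ.re - 1)) ?_).trans ?_
  · intro ρ hρ
    exact zterm ρ (hL ρ hρ).1 (hL ρ hρ).2 Z Y hZ hY
  · rw [list_sum_mul]
    rfl

theorem pr_one_eq (d : ℕ) (hd : 0 < d) : (pr (1 : DirichletCharacter ℂ d)).2 = 1 := by
  have : NeZero d := ⟨hd.ne'⟩
  have h1 : (1 : DirichletCharacter ℂ d).conductor = 1 := DirichletCharacter.conductor_one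
  have h2 : ∀ x : Ch, x.1 = 1 → x.2 = 1 := by
    rintro ⟨q, χ⟩ h
    simp only at h
    subst h
    exact DirichletCharacter.level_one χ
  exact h2 _ h1

theorem core {Z : ℕ} (hZ : 1 ≤ Z) (d : ℕ) (hd : 0 < d) (hdZ : d ≤ Z) (Y : ℝ)
    (hY : 1 ≤ Y) (E : ℝ)
    (hEF : ∀ x ∈ Fam Z, 
      ‖∑ n ∈ Ioc ⌊(1 : ℝ)⌋₊ ⌊Y⌋₊, (Λ n : ℂ) * x.2 (n : ZMod x.1)
          - (if x.2 = 1 then ((Y - 1 : ℝ) : ℂ) else 0)
          + ((zl x Z).map fun ρ => Complex.exp (ρ ^ 2 / (2 * Z)) *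
              (((Y : ℂ) ^ ρ - (((1 : ℝ) : ℂ)) ^ ρ) / ρ)).sum‖ ≤ E)
    (G : Ch → ℝ) (hG : ∀ x, 0 ≤ G x) (hGs : ∑ x ∈ Fam Z, G x ≤ 1 / 100)
    (hGx : ∀ x : Ch, x.1 ∣ d → zs (zl x Z) Y ≤ G x) :
    (19 / 20 : ℝ) * Y - 1 - d.totient * (E + Real.log d * Real.log ⌊Y⌋₊ / Real.log 2)
      ≤ d.totient * ∑ n ∈ (Ioc 1 ⌊Y⌋₊).filter (fun n => n % d = 1 % d), Λ n := by
  have : NeZero d := ⟨hd.ne'⟩
  set N := ⌊Y⌋₊ with hN
  set B := Real.log d * Real.log N / Real.log 2 with hB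
  have hZr : (1 : ℝ) ≤ Z := by exact_mod_cast hZ
  have h1 := congrArg Complex.re (psi_ap d hd (Ioc 1 N))
  have h2 : ((d.totient : ℂ) * ∑ n ∈ (Ioc 1 N).filter (fun n => n % d = 1 % d), (Λ n : ℂ)).re
      = d.totient * ∑ n ∈ (Ioc 1 N).filter (fun n => n % d = 1 % d), Λ n := by
    rw [← Complex.ofReal_sum, ← Complex.ofReal_natCast, ← Complex.ofReal_mul, Complex.ofReal_re]
  rw [h2, Complex.re_sum] at h1
  rw [← h1]
  have h3 : ∀ χ : DirichletCharacter ℂ d,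
      (if χ = 1 then Y - 1 else 0) - 5 * Y * G (pr χ) - (E + B)
        ≤ (∑ n ∈ Ioc 1 N, (Λ n : ℂ) * χ (n : ZMod d)).re := by
    intro χ
    have hx : pr χ ∈ Fam Z := pr_mem hd hdZ χ
    have e1 := hEF (pr χ) hx
    rw [Nat.floor_one] at e1
    have e2 := chi_pr d N hd χ
    have e3 : ‖((zl (pr χ) Z).map fun ρ => Complex.exp (ρ ^ 2 / (2 * Z)) *
        (((Y : ℂ) ^ ρ - (((1 : ℝ) : ℂ)) ^ ρ) / ρ)).sum‖ ≤ 5 * Y * zs (zl (pr χ) Z) Y := by
      refine zsum _ (fun ρ hρ => ?_) Z Y hZr hY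
      have h := (stmt_ZSPEC Z (pr χ) (Fam_pos hx).1.ne').2.2 ρ hρ
      exact ⟨h.2.1, h.2.2.1.le⟩
    have e4 : zs (zl (pr χ) Z) Y ≤ G (pr χ) := hGx _ χ.conductor_dvd_level
    have e5 : 5 * Y * zs (zl (pr χ) Z) Y ≤ 5 * Y * G (pr χ) := by gcongr
    set S := ∑ n ∈ Ioc 1 N, (Λ n : ℂ) * χ (n : ZMod d)
    set S' := ∑ n ∈ Ioc 1 N, (Λ n : ℂ) * (pr χ).2 (n : ZMod (pr χ).1)
    set U := ((zl (pr χ) Z).map fun ρ => Complex.exp (ρ ^ 2 / (2 * Z)) *
        (((Y : ℂ) ^ ρ - (((1 : ℝ) : ℂ)) ^ ρ) / ρ)).sum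
    have a1 : |(S - S').re| ≤ B := (Complex.abs_re_le_norm _).trans e2
    have a2 : |U.re| ≤ 5 * Y * G (pr χ) := (Complex.abs_re_le_norm _).trans (e3.trans e5)
    have a3 := (Complex.abs_re_le_norm _).trans e1
    rw [abs_le] at a1 a2 a3
    rw [Complex.sub_re] at a1
    rw [Complex.add_re, Complex.sub_re] at a3
    have a4 : (if χ = 1 then Y - 1 else 0) ≤ (if (pr χ).2 = 1 then ((Y - 1 : ℝ) : ℂ) else 0).re := by
      by_cases hc : χ = 1
      · subst hc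
        rw [if_pos rfl, if_pos (pr_one_eq d hd), Complex.ofReal_re]
      · rw [if_neg hc]
        split_ifs
        · rw [Complex.ofReal_re]; linarith
        · simp
    linarith [a1.1, a2.1, a2.2, a3.1]
  have h4 := sum_le_sum (s := (univ : Finset (DirichletCharacter ℂ d))) fun χ _ => h3 χ
  refine le_trans ?_ h4
  rw [sum_sub_distrib, sum_sub_distrib, ← mul_sum, sum_const, card_univ, Fintype.card_eq_nat_card,
    DirichletCharacter.card_eq_totient_of_hasEnoughRootsOfUnity ℂ d, nsmul_eq_mul,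
    sum_ite_eq' univ (1 : DirichletCharacter ℂ d), if_pos (mem_univ _)]
  have h5 := (sum_pr_le hd hdZ G hG).trans hGs
  have h6 : 5 * Y * ∑ χ : DirichletCharacter ℂ d, G (pr χ) ≤ 5 * Y * (1 / 100) := by gcongr
  linarith

/-- from `Λ` to primes -/
theorem card_ge (d : ℕ) (t : ℝ) (ht : 1 ≤ t) :
    ∑ n ∈ (Ioc 1 ⌊Real.exp t⌋₊).filter (fun n => n % d = 1 % d), Λ n
        - 2 * Real.exp (t / 2) * t ≤ (PR t d).card * t := by
  set N := ⌊Real.exp t⌋₊ with hN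
  have hY : 1 ≤ Real.exp t := Real.one_le_exp (by linarith)
  have hN1 : 1 ≤ N := Nat.le_floor (by simpa using hY)
  have hNY : (N : ℝ) ≤ Real.exp t := Nat.floor_le (by linarith)
  have hNr : (1 : ℝ) ≤ N := by exact_mod_cast hN1
  have hlog : Real.log N ≤ t := by
    rw [← Real.log_exp t]
    exact Real.log_le_log (by linarith) hNY
  have hlog0 : 0 ≤ Real.log N := Real.log_nonneg hNr
  have h1 : ∑ n ∈ (Ioc 1 N).filter (fun n => n % d = 1 % d), Λ n
      ≤ ∑ n ∈ PR t d, Real.log n + ∑ b ∈ (Ioc 0 N).filter (fun b => ¬ b.Prime), Λ b := by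
    rw [← sum_filter_add_sum_filter_not ((Ioc 1 N).filter (fun n => n % d = 1 % d))
      (fun n => n.Prime)]
    refine add_le_add ?_ ?_
    · refine (sum_congr rfl (g := fun n : ℕ => Real.log n) fun n hn => ?_).le.trans ?_
      · rw [mem_filter] at hn
        exact vonMangoldt_apply_prime hn.2
      · refine sum_le_sum_of_subset_of_nonneg ?_ fun n _ _ => Real.log_natCast_nonneg n
        intro n hn
        rw [mem_filter, mem_filter, mem_Ioc] at hn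
        unfold PR
        rw [mem_filter, mem_range]
        exact ⟨by omega, hn.2, hn.1.2⟩
    · refine sum_le_sum_of_subset_of_nonneg ?_ fun n _ _ => vonMangoldt_nonneg
      intro n hn
      rw [mem_filter, mem_filter, mem_Ioc] at hn
      rw [mem_filter, mem_Ioc]
      exact ⟨⟨by omega, hn.1.1.2⟩, hn.2⟩
  have h2 := nonprime_sum N hN1
  have h3 : 2 * √(N : ℝ) * Real.log N ≤ 2 * Real.exp (t / 2) * t := by
    have h4 : √(N : ℝ) ≤ Real.exp (t / 2) := by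
      rw [Real.exp_half]
      exact Real.sqrt_le_sqrt hNY
    have h5 : 0 ≤ Real.exp (t / 2) := (Real.exp_pos _).le
    gcongr
  have h4 : ∑ n ∈ PR t d, Real.log n ≤ (PR t d).card * t := by
    rw [← nsmul_eq_mul]
    refine sum_le_card_nsmul _ _ _ fun n hn => ?_
    unfold PR at hn
    rw [mem_filter, mem_range] at hn
    refine le_trans ?_ hlog
    refine Real.log_le_log ?_ ?_
    · exact_mod_cast hn.2.1.pos
    · exact_mod_cast (by omega : n ≤ N)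
  linarith

/-- the exceptional modulus is large -/
theorem exc_large (A : ℕ) (c κ t δ : ℝ) (e : ℕ) (hc : 0 < c) (hκ : 0 < κ) (ht : 1 ≤ t)
    (hbt : 1 < (c * κ / 2) ^ (2 * A + 2) * t) (he : 0 < e)
    (h1 : c * (e : ℝ) ^ (-(1 / (2 * (A : ℝ) + 2))) ≤ δ) (h2 : δ ≤ 2 / (κ * t)) :
    t ^ A < e := by
  have he' : (0 : ℝ) < e := by exact_mod_cast he
  set w := (e : ℝ) ^ (-(1 / (2 * (A : ℝ) + 2))) with hw
  have hw0 : 0 < w := Real.rpow_pos_of_pos he' _
  set b := c * κ / 2 with hb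
  have hb0 : 0 < b := by positivity
  have hA : (2 * (A : ℝ) + 2) ≠ 0 := by positivity
  have h3 : w ^ (2 * A + 2) = (e : ℝ)⁻¹ := by
    rw [hw, ← Real.rpow_natCast, ← Real.rpow_mul he'.le]
    push_cast
    rw [neg_mul, one_div, inv_mul_cancel₀ hA, Real.rpow_neg_one]
  have ht0 : 0 < t := by linarith
  have h4 : w * (b * t) ≤ 1 := by
    have h5 : c * w ≤ 2 / (κ * t) := h1.trans h2
    rw [le_div_iff₀ (by positivity)] at h5
    rw [hb]
    linarith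
  have h5 : (w * (b * t)) ^ (2 * A + 2) ≤ 1 := pow_le_one₀ (by positivity) h4
  rw [mul_pow, h3, inv_mul_le_iff₀ he', mul_one, mul_pow] at h5
  refine lt_of_lt_of_le ?_ h5
  have h6 : t ^ (2 * A + 2) = t * t ^ (2 * A + 1) := by ring
  rw [h6, ← mul_assoc]
  have h7 : t ^ A ≤ t ^ (2 * A + 1) := pow_le_pow_right₀ ht (by omega)
  have h8 : 0 < t ^ (2 * A + 1) := by positivity
  nlinarith

theorem large (κ C b : ℝ) (M : ℕ) (hκ : 0 < κ) (hb : 0 < b) : ∃ T : ℝ, ∀ t : ℝ, T ≤ t →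
    1 ≤ t ∧ 16 / κ ^ 2 ≤ t ∧ (M : ℝ) ≤ Real.exp (κ * t) ∧
    C * Real.exp (-(κ / 24 * t)) ≤ 1 / 100 ∧ C * Real.exp (-(1 / 40 * t)) ≤ 1 / 100 ∧
    t ^ 2 ≤ 1 / 100 * Real.exp (t / 4) ∧ 1 < b * t ∧ 4 ≤ κ * t := by
  have hexp : ∀ a : ℝ, 0 < a → ∀ᶠ t : ℝ in Filter.atTop, C * Real.exp (-(a * t)) ≤ 1 / 100 := by
    intro a ha
    have h1 : Filter.Tendsto (fun t : ℝ => C * Real.exp (-(a * t))) Filter.atTop (nhds (C * 0)) :=
      (Real.tendsto_exp_neg_atTop_nhds_zero.comp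
        (Filter.tendsto_id.const_mul_atTop ha)).const_mul C
    rw [mul_zero] at h1
    exact (h1.eventually (gt_mem_nhds (by norm_num : (0 : ℝ) < 1 / 100))).mono fun t h => h.le
  have h2 : ∀ᶠ t : ℝ in Filter.atTop, t ^ 2 ≤ 1 / 100 * Real.exp (t / 4) := by
    have h3 := (Real.tendsto_pow_mul_exp_neg_atTop_nhds_zero 2).comp
      (Filter.tendsto_id.const_mul_atTop (by norm_num : (0 : ℝ) < 1 / 4))
    refine (h3.eventually (gt_mem_nhds (by norm_num : (0 : ℝ) < 1 / 1600))).mono fun t h => ?_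
    simp only [Function.comp, id] at h
    have e1 : Real.exp (-(1 / 4 * t)) * Real.exp (t / 4) = 1 := by
      rw [← Real.exp_add]
      have : -(1 / 4 * t) + t / 4 = 0 := by ring
      rw [this, Real.exp_zero]
    have e2 := Real.exp_pos (t / 4)
    have e3 : t ^ 2 / 16 = (1 / 4 * t) ^ 2 * (Real.exp (-(1 / 4 * t)) * Real.exp (t / 4)) := by
      rw [e1]; ring
    have e4 : (1 / 4 * t) ^ 2 * (Real.exp (-(1 / 4 * t)) * Real.exp (t / 4))
        ≤ 1 / 1600 * Real.exp (t / 4) := by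
      rw [← mul_assoc]
      exact mul_le_mul_of_nonneg_right h.le e2.le
    linarith
  have h3 : ∀ a K : ℝ, 0 < a → ∀ᶠ t : ℝ in Filter.atTop, K ≤ a * t := fun a K ha =>
    (Filter.tendsto_id.const_mul_atTop ha).eventually_ge_atTop K
  have h4 : ∀ᶠ t : ℝ in Filter.atTop, (M : ℝ) ≤ Real.exp (κ * t) :=
    (Real.tendsto_exp_atTop.comp
      (Filter.tendsto_id.const_mul_atTop hκ)).eventually_ge_atTop (M : ℝ)
  have h5 := (Filter.eventually_ge_atTop (1 : ℝ)).and ((Filter.eventually_ge_atTop (16 / κ ^ 2)).and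
    (h4.and ((hexp (κ / 24) (by positivity)).and ((hexp (1 / 40) (by norm_num)).and
    (h2.and ((h3 b 2 hb).and (h3 κ 4 hκ)))))))
  obtain ⟨T, hT⟩ := Filter.eventually_atTop.1 h5
  refine ⟨T, fun t ht => ?_⟩
  obtain ⟨a1, a2, a3, a4, a5, a6, a7, a8⟩ := hT t ht
  exact ⟨a1, a2, a3, a4, a5, a6, by linarith, a8⟩

/-- the numbers -/
theorem num (κ C t : ℝ) (Z d : ℕ) (hκ : 0 < κ) (hκ' : κ ≤ 1 / 300) (hC : 0 ≤ C) (ht : 1 ≤ t)
    (h1 : C * Real.exp (-(κ / 24 * t)) ≤ 1 / 100) (h2 : C * Real.exp (-(1 / 40 * t)) ≤ 1 / 100)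
    (h3 : t ^ 2 ≤ 1 / 100 * Real.exp (t / 4)) (hd : 1 ≤ d)
    (hdt : (d : ℝ) ≤ Real.exp (κ / 8 * t)) (hZ1 : (Z : ℝ) ≤ Real.exp (κ * t)) (hZ0 : 1 ≤ Z)
    (hZ : κ * t / 2 ≤ Real.log Z)
    (P : ℝ)
    (hcore : (19 / 20 : ℝ) * Real.exp t - 1 - d.totient *
      (C * (Real.exp t * (Z : ℝ) ^ (-(1 / 3) : ℝ) + (Z : ℝ) ^ 5 * (Real.exp t) ^ (19 / 20 : ℝ))
        + Real.log d * Real.log ⌊Real.exp t⌋₊ / Real.log 2)
      ≤ d.totient * (P + 2 * Real.exp (t / 2) * t)) :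
    Real.exp t / 2 ≤ d.totient * P := by
  have hφ : (d.totient : ℝ) ≤ Real.exp (κ / 8 * t) :=
    (Nat.cast_le.2 (Nat.totient_le d)).trans hdt
  have hφ0 : (0 : ℝ) ≤ d.totient := Nat.cast_nonneg _
  set Y := Real.exp t with hY
  have hY0 : 0 < Y := Real.exp_pos t
  have hZr : (1 : ℝ) ≤ Z := by exact_mod_cast hZ0
  have hZpos : (0 : ℝ) < Z := by linarith
  -- first error term
  have a1 : d.totient * (C * (Y * (Z : ℝ) ^ (-(1 / 3) : ℝ))) ≤ Y / 100 := by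
    have e1 : (Z : ℝ) ^ (-(1 / 3) : ℝ) ≤ Real.exp (-(κ * t / 6)) := by
      rw [Real.rpow_def_of_pos hZpos]
      apply Real.exp_le_exp.2
      linarith
    calc d.totient * (C * (Y * (Z : ℝ) ^ (-(1 / 3) : ℝ)))
        ≤ Real.exp (κ / 8 * t) * (C * (Y * Real.exp (-(κ * t / 6)))) := by gcongr
      _ = (C * Real.exp (-(κ / 24 * t))) * Y := by
          have : Real.exp (-(κ / 24 * t)) = Real.exp (κ / 8 * t) * Real.exp (-(κ * t / 6)) := by
            rw [← Real.exp_add]; congr 1; ring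
          rw [this]; ring
      _ ≤ 1 / 100 * Y := mul_le_mul_of_nonneg_right h1 hY0.le
      _ = Y / 100 := by ring
  -- second error term
  have a2 : d.totient * (C * ((Z : ℝ) ^ 5 * Y ^ (19 / 20 : ℝ))) ≤ Y / 100 := by
    have e1 : Y ^ (19 / 20 : ℝ) = Real.exp (19 / 20 * t) := by
      rw [hY, ← Real.exp_mul]; congr 1; ring
    have e2 : (Z : ℝ) ^ 5 ≤ Real.exp (5 * (κ * t)) := by
      calc (Z : ℝ) ^ 5 ≤ (Real.exp (κ * t)) ^ 5 := by gcongr
        _ = Real.exp (5 * (κ * t)) := by rw [← Real.exp_nat_mul]; norm_num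
    calc d.totient * (C * ((Z : ℝ) ^ 5 * Y ^ (19 / 20 : ℝ)))
        ≤ Real.exp (κ / 8 * t) * (C * (Real.exp (5 * (κ * t)) * Real.exp (19 / 20 * t))) := by
          rw [e1]; gcongr
      _ = C * Real.exp (κ / 8 * t + 5 * (κ * t) + 19 / 20 * t) := by
          rw [Real.exp_add, Real.exp_add]; ring
      _ ≤ C * Real.exp (-(1 / 40 * t) + t) := by
          apply mul_le_mul_of_nonneg_left _ hC
          apply Real.exp_le_exp.2
          nlinarith
      _ = (C * Real.exp (-(1 / 40 * t))) * Y := by rw [Real.exp_add]; ring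
      _ ≤ 1 / 100 * Y := mul_le_mul_of_nonneg_right h2 hY0.le
      _ = Y / 100 := by ring
  have hκt : κ / 8 * t ≤ t / 2400 := by nlinarith
  have hκ0 : 0 ≤ κ / 8 * t := by positivity
  have hφ2 : (d.totient : ℝ) ≤ Real.exp (t / 4) :=
    hφ.trans (Real.exp_le_exp.2 (by linarith))
  have hE4 : 0 < Real.exp (t / 4) := Real.exp_pos _
  have hYE : Y = Real.exp (t / 4) * Real.exp (t / 4) * Real.exp (t / 2) := by
    rw [← Real.exp_add, ← Real.exp_add, hY]; congr 1; ring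
  have hE2 : Real.exp (t / 2) = Real.exp (t / 4) * Real.exp (t / 4) := by
    rw [← Real.exp_add]; congr 1; ring
  have h100 : 100 ≤ Real.exp (t / 4) := by nlinarith
  have htt : t ≤ t ^ 2 := by nlinarith
  -- third error term
  have a3 : d.totient * (Real.log d * Real.log ⌊Y⌋₊ / Real.log 2) ≤ Y / 100 := by
    have hlog2 : 1 / 2 ≤ Real.log 2 := by linarith [Real.log_two_gt_d9]
    have hdr : (1 : ℝ) ≤ d := by exact_mod_cast hd
    have e1 : Real.log d ≤ κ / 8 * t := by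
      rw [← Real.log_exp (κ / 8 * t)]
      exact Real.log_le_log (by linarith) hdt
    have e2 : Real.log ⌊Y⌋₊ ≤ t := by
      rw [← Real.log_exp t]
      have hY1 : 1 ≤ Y := Real.one_le_exp (by linarith)
      have : (1 : ℝ) ≤ ⌊Y⌋₊ := by exact_mod_cast Nat.le_floor (by simpa using hY1)
      exact Real.log_le_log (by linarith) (Nat.floor_le hY0.le)
    have e3 : Real.log d * Real.log ⌊Y⌋₊ / Real.log 2 ≤ t ^ 2 := by
      rw [div_le_iff₀ (by linarith)]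
      have e4 : 0 ≤ Real.log ⌊Y⌋₊ := Real.log_natCast_nonneg _
      have e5 : 0 ≤ Real.log d := Real.log_natCast_nonneg _
      calc Real.log d * Real.log ⌊Y⌋₊ ≤ (t / 2400) * t := by
            apply mul_le_mul (e1.trans hκt) e2 e4 (by linarith)
        _ ≤ t ^ 2 * (1 / 2) := by nlinarith
        _ ≤ t ^ 2 * Real.log 2 := by gcongr
    calc d.totient * (Real.log d * Real.log ⌊Y⌋₊ / Real.log 2)
        ≤ Real.exp (t / 4) * (1 / 100 * Real.exp (t / 4)) :=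
          mul_le_mul hφ2 (e3.trans h3) (by positivity) hE4.le
      _ ≤ Y / 100 := by
          rw [hYE]
          have : 1 ≤ Real.exp (t / 2) := Real.one_le_exp (by linarith)
          nlinarith [mul_pos hE4 hE4]
  -- prime powers
  have a4 : d.totient * (2 * Real.exp (t / 2) * t) ≤ Y / 50 := by
    calc d.totient * (2 * Real.exp (t / 2) * t)
        ≤ Real.exp (t / 4) * (2 * Real.exp (t / 2) * (1 / 100 * Real.exp (t / 4))) := by
          have : t ≤ 1 / 100 * Real.exp (t / 4) := htt.trans h3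
          gcongr
      _ = Y / 50 := by rw [hYE]; ring
  have a5 : 1 ≤ Y / 100 := by
    have : Real.exp (t / 4) ≤ Y := Real.exp_le_exp.2 (by linarith)
    linarith
  have a6 : d.totient *
      (C * (Y * (Z : ℝ) ^ (-(1 / 3) : ℝ) + (Z : ℝ) ^ 5 * Y ^ (19 / 20 : ℝ))
        + Real.log d * Real.log ⌊Y⌋₊ / Real.log 2) =
      d.totient * (C * (Y * (Z : ℝ) ^ (-(1 / 3) : ℝ)))
      + d.totient * (C * ((Z : ℝ) ^ 5 * Y ^ (19 / 20 : ℝ)))
      + d.totient * (Real.log d * Real.log ⌊Y⌋₊ / Real.log 2) := by ring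
  rw [a6, mul_add] at hcore
  linarith

theorem stmt_Sup : Stmt_Sup := by
  obtain ⟨κ1, hκ1, Z0, hzs⟩ := main_zs (1 / 100) (by norm_num)
  obtain ⟨C, hC, hef⟩ := main_ef
  obtain ⟨κ, hκ, hκa, hκb⟩ : ∃ κ : ℝ, 0 < κ ∧ κ ≤ κ1 ∧ κ ≤ 1 / 300 :=
    ⟨min κ1 (1 / 300), lt_min hκ1 (by norm_num), min_le_left _ _, min_le_right _ _⟩
  refine ⟨κ / 8, by positivity, fun A => ?_⟩
  obtain ⟨c, hc, hsieg⟩ := stmt_SIEG (1 / (2 * (A : ℝ) + 2)) (by positivity)
  obtain ⟨T, hT⟩ := large κ C ((c * κ / 2) ^ (2 * A + 2)) (Z0 + ⌈C⌉₊ + 3) hκ (by positivity)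
  refine ⟨T, fun t ht => ?_⟩
  obtain ⟨t1, t2, t3, t4, t5, t6, t7, t8⟩ := hT t ht
  have ht0 : 0 < t := by linarith
  set Y := Real.exp t with hY
  have hY1 : 1 ≤ Y := Real.one_le_exp (by linarith)
  set Z := ⌊Real.exp (κ * t)⌋₊ with hZd
  have hZM : Z0 + ⌈C⌉₊ + 3 ≤ Z := Nat.le_floor t3
  have hZ1 : (Z : ℝ) ≤ Real.exp (κ * t) := Nat.floor_le (Real.exp_pos _).le
  have hZ2 : Real.exp (κ * t) < Z + 1 := Nat.lt_floor_add_one _
  have hZr : (3 : ℝ) ≤ Z := by exact_mod_cast (by omega : 3 ≤ Z)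
  have hZC : C ≤ Z := (Nat.le_ceil C).trans (by exact_mod_cast (by omega : ⌈C⌉₊ ≤ Z))
  have hZlog : κ * t / 2 ≤ Real.log Z := by
    have e1 : Real.exp (κ * t / 2) ≤ Z := by
      have e2 : Real.exp (κ * t) = Real.exp (κ * t / 2) * Real.exp (κ * t / 2) := by
        rw [← Real.exp_add]; congr 1; ring
      have e3 : 2 ≤ Real.exp (κ * t / 2) := by
        have := Real.add_one_le_exp (κ * t / 2)
        linarith
      nlinarith
    calc κ * t / 2 = Real.log (Real.exp (κ * t / 2)) := (Real.log_exp _).symm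
      _ ≤ Real.log Z := Real.log_le_log (Real.exp_pos _) e1
  have hYZ : Y ≤ Real.exp ((Real.log Z) ^ 2) := by
    apply Real.exp_le_exp.2
    have e1 : 16 ≤ t * κ ^ 2 := by
      rwa [div_le_iff₀ (by positivity)] at t2
    have e2 : (κ * t / 2) ^ 2 ≤ (Real.log Z) ^ 2 := by
      have : 0 ≤ κ * t / 2 := by positivity
      gcongr
    nlinarith
  have hZY : (Z : ℝ) ≤ Y ^ κ1 := by
    rw [hY, ← Real.exp_mul]
    refine hZ1.trans (Real.exp_le_exp.2 ?_)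
    rw [mul_comm]
    exact mul_le_mul_of_nonneg_left hκa ht0.le
  -- the main argument
  have main : ∀ (G : Ch → ℝ), (∀ x, 0 ≤ G x) → ∑ x ∈ Fam Z, G x ≤ 1 / 100 → ∀ d : ℕ, 1 ≤ d →
      (d : ℝ) ≤ Real.exp (κ / 8 * t) → (∀ x : Ch, x.1 ∣ d → zs (zl x Z) Y ≤ G x) →
      Y / (2 * d.totient * t) ≤ ((PR t d).card : ℝ) := by
    intro G hG hGs d hd hdt hGx
    have hdZ : d ≤ Z := by
      apply Nat.le_floor
      refine hdt.trans (Real.exp_le_exp.2 ?_)
      nlinarith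
    have h1 := core (by omega : 1 ≤ Z) d hd hdZ Y hY1 _
      (fun x hx => hef Z hZC x hx 1 Y le_rfl hY1 hYZ) G hG hGs hGx
    have h2 := card_ge d t t1
    have hφ : (0 : ℝ) < d.totient := by exact_mod_cast Nat.totient_pos.2 hd
    have h3 : d.totient * ∑ n ∈ (Ioc 1 ⌊Y⌋₊).filter (fun n => n % d = 1 % d), Λ n
        ≤ d.totient * ((PR t d).card * t + 2 * Real.exp (t / 2) * t) :=
      mul_le_mul_of_nonneg_left (by linarith) hφ.le
    have h4 := num κ C t Z d hκ hκb (by linarith) t1 t4 t5 t6 hd hdt hZ1 (by omega) hZlog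
      ((PR t d).card * t) (h1.trans h3)
    rw [div_le_iff₀ (by positivity)]
    nlinarith
  rcases hzs Z (by omega) Y hY1 hZY with h | ⟨y, δ, hE, hδ, h⟩
  · obtain ⟨e, he⟩ := exists_nat_gt (t ^ A)
    refine ⟨e, he, fun d hd hdt _ => ?_⟩
    exact main (fun x => zs (zl x Z) Y) (fun x => zs_nonneg _ _ (by linarith)) h d hd hdt
      fun x _ => le_rfl
  · refine ⟨y.1, ?_, fun d hd hdt hed => ?_⟩
    · have hy := Fam_pos hE.mem
      refine exc_large A c κ t δ y.1 hc hκ t1 t7 hy.1 (hsieg Z y δ hE) (hδ.trans ?_)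
      have : 0 < κ * t / 2 := by positivity
      calc 1 / Real.log Z ≤ 1 / (κ * t / 2) := one_div_le_one_div_of_le this hZlog
        _ = 2 / (κ * t) := by field_simp
    · refine main (fun x => zs (zx Z y δ x) Y) (fun x => zs_nonneg _ _ (by linarith))
        (h.trans ?_) d hd hdt fun x hx => ?_
      · have : min 1 (δ * Real.log Y) ≤ 1 := min_le_left _ _
        linarith
      · have hxy : x ≠ y := by
          rintro rfl
          exact hed hx
        unfold zx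
        rw [if_neg hxy]

end Pool.Agent.Work.MP_2738db_nt_Z.helper49
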